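import Pool.Agent.helper45.BR.Spec
import Pool.Agent.helper31.NL.CT0

/-!
# Module br:MOM (MP_af9036_an, MP_70a088_an): moments of a density with locally vanishing Cauchy transform
-/

set_option autoImplicit false

open Complex Metric Set Filter Topology MeasureTheory MPS Pool.Agent.helper98.ILF
  Pool.Agent.helper16.Multibrot

noncomputable section

namespace BR

/-- the circle integrals of `(w - b) ^ j / (z - w)`. -/
theorem MOM_circ (b : ℂ) (r : ℝ) (hr : 0 < r) (j : ℕ) (z : ℂ) (hz : z ∉ sphere b r) :
    (∮ w in C(b, r), (z - w)⁻¹ * (w - b) ^ j) =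
      (ball b r).indicator (fun z => -(2 * Real.pi * I) * (z - b) ^ j) z := by
  have hneg : (∮ w in C(b, r), (z - w)⁻¹ * (w - b) ^ j) =
      -(∮ w in C(b, r), (w - z)⁻¹ • (w - b) ^ j) := by
    unfold circleIntegral
    rw [← intervalIntegral.integral_neg]
    congr 1
    ext θ
    show deriv (circleMap b r) θ • ((z - circleMap b r θ)⁻¹ * (circleMap b r θ - b) ^ j) =
      -(deriv (circleMap b r) θ • ((circleMap b r θ - z)⁻¹ • (circleMap b r θ - b) ^ j))
    rw [← smul_neg, smul_eq_mul (circleMap b r θ - z)⁻¹, ← neg_mul, ← inv_neg, neg_sub]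
  have hd : Differentiable ℂ (fun w : ℂ => (w - b) ^ j) := by fun_prop
  rw [hneg]
  by_cases h1 : z ∈ ball b r
  · rw [indicator_of_mem h1]
    have h2 : DiffContOnCl ℂ (fun w : ℂ => (w - b) ^ j) (ball b r) := hd.diffContOnCl
    rw [h2.circleIntegral_sub_inv_smul h1, smul_eq_mul, neg_mul]
  · rw [indicator_of_notMem h1]
    have h2 : z ∉ closedBall b r := by
      intro h
      rw [← ball_union_sphere] at h
      rcases h with h | h
      · exact h1 h
      · exact hz h
    have hne : ∀ w ∈ closedBall b r, w - z ≠ 0 := by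
      intro w hw h0
      rw [sub_eq_zero] at h0
      rw [h0] at hw
      exact h2 hw
    rw [neg_eq_zero]
    refine Complex.circleIntegral_eq_zero_of_differentiable_on_off_countable hr.le
      (s := ∅) countable_empty ?_ ?_
    · intro w hw
      exact (((continuousAt_id.sub continuousAt_const).inv₀ (hne w hw)).smul
        hd.continuous.continuousAt).continuousWithinAt
    · intro w hw
      exact ((differentiableAt_id.sub_const z).inv (hne w (ball_subset_closedBall hw.1))).smul
        (hd w)

theorem MOM_ball (h : NLF.CTB_stmt) (μ : ℂ → ℂ) (hm : Measurable μ) (hb : ∀ z, ‖μ z‖ ≤ 1)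
    (hs : ∀ z, μ z ≠ 0 → ‖z‖ < 4) (b : ℂ) (r : ℝ) (hr : 0 < r)
    (h0 : ∀ w ∈ sphere b r, NLF.CT μ w = 0) (j : ℕ) :
    ∫ z in ball b r, μ z * (z - b) ^ j = 0 := by
  -- the kernel
  set F : ℝ → ℂ → ℂ := fun θ z =>
    (deriv (circleMap b r) θ * (circleMap b r θ - b) ^ j) * (μ z / (z - circleMap b r θ)) with hF
  have hcm : Measurable (circleMap b r) := (continuous_circleMap b r).measurable
  have hdm : Measurable (deriv (circleMap b r)) := measurable_deriv _
  have hFm : Measurable (Function.uncurry F) := by
    have e : Function.uncurry F = fun p : ℝ × ℂ =>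
      (deriv (circleMap b r) p.1 * (circleMap b r p.1 - b) ^ j) *
      (μ p.2 / (p.2 - circleMap b r p.1)) := by
      ext p; rfl
    rw [e]
    exact ((hdm.comp measurable_fst).mul
      (((hcm.comp measurable_fst).sub_const b).pow_const j)).mul
      ((hm.comp measurable_snd).div (measurable_snd.sub (hcm.comp measurable_fst)))
  have hnb : ∀ θ, ‖deriv (circleMap b r) θ * (circleMap b r θ - b) ^ j‖ = r * r ^ j := by
    intro θ
    rw [norm_mul, norm_pow, deriv_circleMap]
    simp [circleMap, abs_of_pos hr]
  have hFi : Integrable (Function.uncurry F)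
      ((volume.restrict (Ioc 0 (2 * Real.pi))).prod (volume : Measure ℂ)) := by
    rw [integrable_prod_iff hFm.aestronglyMeasurable]
    constructor
    · refine Eventually.of_forall fun θ => ?_
      have := ((h μ hm hb hs).1 (circleMap b r θ)).const_mul
        (deriv (circleMap b r) θ * (circleMap b r θ - b) ^ j)
      exact this
    · refine Integrable.mono' (g := fun _ => r * r ^ j * 80) ?_ ?_ ?_
      · exact integrable_const _
      · exact hFm.aestronglyMeasurable.norm.integral_prod_right'
      · refine Eventually.of_forall fun θ => ?_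
        rw [Real.norm_eq_abs, abs_of_nonneg (integral_nonneg fun z => norm_nonneg _)]
        have e : ∀ z, ‖Function.uncurry F (θ, z)‖ =
            (r * r ^ j) * ‖μ z / (z - circleMap b r θ)‖ := by
          intro z
          show ‖(deriv (circleMap b r) θ * (circleMap b r θ - b) ^ j) *
            (μ z / (z - circleMap b r θ))‖ = _
          rw [norm_mul, hnb]
        simp_rw [e]
        rw [integral_const_mul]
        exact mul_le_mul_of_nonneg_left (NLF.CT0_bound h μ hm hb hs _) (by positivity)
  have hsw := integral_integral_swap hFi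
  -- the left side vanishes
  have hL : ∫ θ in Ioc 0 (2 * Real.pi), ∫ z : ℂ, F θ z = 0 := by
    have e : ∀ θ, ∫ z : ℂ, F θ z = 0 := by
      intro θ
      have := h0 (circleMap b r θ) (circleMap_mem_sphere b hr.le θ)
      unfold NLF.CT at this
      simp only [hF]
      rw [integral_const_mul, this, mul_zero]
    simp_rw [e]
    simp
  rw [hL] at hsw
  -- the right side
  have hR : ∫ z : ℂ, ∫ θ in Ioc 0 (2 * Real.pi), F θ z =
      ∫ z : ℂ, (ball b r).indicator (fun z => -(2 * Real.pi * I) * (μ z * (z - b) ^ j)) z := by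
    refine integral_congr_ae ?_
    have hnull : ∀ᵐ z : ℂ, z ∉ sphere b r := by
      have := Measure.addHaar_sphere (volume : Measure ℂ) b r
      exact measure_eq_zero_iff_ae_notMem.mp this
    filter_upwards [hnull] with z hz
    have hc := MOM_circ b r hr j z hz
    have e1 : ∫ θ in Ioc 0 (2 * Real.pi), F θ z =
        μ z * (∮ w in C(b, r), (z - w)⁻¹ * (w - b) ^ j) := by
      unfold circleIntegral
      rw [intervalIntegral.integral_of_le (by positivity), ← integral_const_mul]
      refine integral_congr_ae (Eventually.of_forall fun θ => ?_)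
      simp only [hF, smul_eq_mul]
      rw [div_eq_mul_inv]
      ring
    rw [e1, hc]
    by_cases h1 : z ∈ ball b r
    · rw [indicator_of_mem h1, indicator_of_mem h1]; ring
    · rw [indicator_of_notMem h1, indicator_of_notMem h1]; ring
  rw [hR, integral_indicator measurableSet_ball, integral_const_mul] at hsw
  have h2 : (-(2 * Real.pi * I) : ℂ) ≠ 0 := by
    simp [Real.pi_ne_zero]
  rcases mul_eq_zero.mp hsw.symm with h4 | h4
  · exact absurd h4 h2
  · exact h4

theorem MOM (h : NLF.CTB_stmt) : MOM_stmt := by
  intro μ z₀ ρ ρ' hρ hρ' hm hb hs hann h0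
  set R : ℝ := (ρ + ρ') / 2 with hR
  have hR1 : ρ < R := by rw [hR]; linarith
  have hR2 : R < ρ' := by rw [hR]; linarith
  have hR0 : 0 < R := hρ.trans hR1
  have hsph : ∀ w ∈ sphere z₀ R, NLF.CT μ w = 0 := by
    intro w hw
    rw [mem_sphere, dist_eq_norm] at hw
    exact h0 w (by rw [hw]; exact hR1) (by rw [hw]; exact hR2)
  have key : ∀ j : ℕ, ∫ z in ball z₀ ρ, μ z * (z - z₀) ^ j = 0 := by
    intro j
    have h1 := MOM_ball h μ hm hb hs z₀ R hR0 hsph j
    rw [← h1]
    refine setIntegral_eq_of_subset_of_forall_sdiff_eq_zero measurableSet_ball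
      (ball_subset_ball hR1.le) (fun z hz => ?_) |>.symm
    have hz1 : ‖z - z₀‖ < R := by
      have := hz.1
      rwa [mem_ball, dist_eq_norm] at this
    have hz2 : ρ ≤ ‖z - z₀‖ := by
      have := hz.2
      rw [mem_ball, dist_eq_norm] at this
      exact not_lt.1 this
    rw [hann z hz2 (hz1.trans hR2), zero_mul]
  refine ⟨?_, ?_⟩
  · simpa using key 0
  · simpa using key 1

end BR
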